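import Pool.Agent.H998.HK.Spec3
import Pool.Agent.H773.HK.Moll

/-!
# Task CHAIN of the project HK: chain rule for vector valued Sobolev functions
-/

set_option autoImplicit false

noncomputable section

namespace Pool.Agent.H548.HK

open MeasureTheory Filter Topology Set
open Pool.Agent.H998.HK Pool.Agent.H773.HK
open scoped ENNReal NNReal


/-- Cauchy-Schwarz for lower integrals -/
theorem cs_lint {α : Type*} [MeasurableSpace α] {μ : Measure α} {f g : α → ℝ≥0∞}
    (hf : AEMeasurable f μ) (hg : AEMeasurable g μ) :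
    ∫⁻ x, f x * g x ∂μ ≤ (∫⁻ x, f x ^ 2 ∂μ) ^ (1 / 2 : ℝ) * (∫⁻ x, g x ^ 2 ∂μ) ^ (1 / 2 : ℝ) := by
  have h := ENNReal.lintegral_mul_le_Lp_mul_Lq μ Real.HolderConjugate.two_two hf hg
  simpa [ENNReal.rpow_two] using h

theorem tendsto_mul_L2 {α : Type*} [MeasurableSpace α] {μ : Measure α} {c : α → ℝ≥0∞}
    {w : ℕ → α → ℝ≥0∞} (hc : AEMeasurable c μ) (hw : ∀ k, AEMeasurable (w k) μ)
    (hcf : ∫⁻ x, c x ^ 2 ∂μ ≠ ∞) (h : Tendsto (fun k => ∫⁻ x, w k x ^ 2 ∂μ) atTop (𝓝 0)) :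
    Tendsto (fun k => ∫⁻ x, c x * w k x ∂μ) atTop (𝓝 0) := by
  have h1 : Tendsto (fun k => (∫⁻ x, c x ^ 2 ∂μ) ^ (1 / 2 : ℝ) * (∫⁻ x, w k x ^ 2 ∂μ) ^ (1 / 2 : ℝ))
      atTop (𝓝 0) := by
    have h2 : Tendsto (fun k => (∫⁻ x, w k x ^ 2 ∂μ) ^ (1 / 2 : ℝ)) atTop (𝓝 ((0:ℝ≥0∞) ^ (1/2:ℝ))) :=
      (ENNReal.continuous_rpow_const.tendsto _).comp h
    rw [ENNReal.zero_rpow_of_pos (by norm_num)] at h2
    have h3 := ENNReal.Tendsto.const_mul (a := (∫⁻ x, c x ^ 2 ∂μ) ^ (1 / 2 : ℝ)) h2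
      (Or.inr (ENNReal.rpow_ne_top_of_nonneg (by norm_num) hcf))
    simpa using h3
  exact tendsto_of_tendsto_of_tendsto_of_le_of_le tendsto_const_nhds h1 (fun _ => bot_le)
    (fun k => cs_lint hc (hw k))

theorem t_CHAIN : S_CHAIN := by
  intro H K _ _ _ _ _ _ Ψ L hΨ hL u D hu hD hw i φ hφ
  set e : E3 := EuclideanSpace.single i (1:ℝ) with he
  have hL0 : 0 ≤ L := (norm_nonneg _).trans (hL 0)
  have hwd : WDF e u (D i) := fun ψ hψ => hw i ψ hψ
  have hlu : LocallyIntegrable u := hu.locallyIntegrable (by norm_num)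
  have hlD : LocallyIntegrable (D i) := (hD i).locallyIntegrable (by norm_num)
  have hΨc : Continuous Ψ := hΨ.continuous
  have hΨ'c : Continuous (fderiv ℝ Ψ) := hΨ.continuous_fderiv one_ne_zero
  have hΨd : Differentiable ℝ Ψ := hΨ.differentiable one_ne_zero
  have hlip : ∀ a b, ‖Ψ a - Ψ b‖ ≤ L * ‖a - b‖ := fun a b =>
    Convex.norm_image_sub_le_of_norm_fderiv_le (fun x _ => hΨd x) (fun x _ => hL x) convex_univ
      (mem_univ b) (mem_univ a)
  have hlipe : ∀ a b, ‖Ψ a - Ψ b‖ₑ ≤ ENNReal.ofReal L * ‖a - b‖ₑ := fun a b => by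
    rw [← ofReal_norm, ← ofReal_norm, ← ENNReal.ofReal_mul hL0]
    exact ENNReal.ofReal_le_ofReal (hlip a b)
  have hLe : ∀ a v, ‖fderiv ℝ Ψ a v‖ₑ ≤ ENNReal.ofReal L * ‖v‖ₑ := fun a v => by
    rw [← ofReal_norm, ← ofReal_norm, ← ENNReal.ofReal_mul hL0]
    exact ENNReal.ofReal_le_ofReal ((ContinuousLinearMap.le_opNorm _ _).trans
      (mul_le_mul_of_nonneg_right (hL a) (norm_nonneg _)))
  have hφc : Continuous φ := hφ.1.continuous
  have hφ1 : ContDiff ℝ 1 φ := hφ.1.of_le (by exact_mod_cast le_top)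
  have hpc : Continuous (pd i φ) := by
    have : Continuous fun x => fderiv ℝ φ x e := (hφ1.continuous_fderiv one_ne_zero).clm_apply continuous_const
    exact this
  have hps : HasCompactSupport (pd i φ) := by
    have h1 : HasCompactSupport (fderiv ℝ φ) := hφ.2.fderiv ℝ
    exact h1.comp_left (g := fun l : E3 →L[ℝ] ℝ => l e) rfl
  have hφ2 : ∫⁻ x, ‖φ x‖ₑ ^ 2 ≠ ∞ := (memLp_two_iff.1 (hφc.memLp_of_hasCompactSupport hφ.2)).2
  have hp2 : ∫⁻ x, ‖pd i φ x‖ₑ ^ 2 ≠ ∞ := (memLp_two_iff.1 (hpc.memLp_of_hasCompactSupport hps)).2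
  -- the mollified functions
  have hmc : ∀ k, ContDiff ℝ ((⊤ : ℕ∞) : WithTop ℕ∞) (mol k u) := fun k => mol_contDiff k hlu
  have hmD : ∀ k, Continuous (mol k (D i)) := fun k => (mol_contDiff k hlD).continuous
  have hg1 : ∀ k, ContDiff ℝ 1 (fun x => Ψ (mol k u x)) := fun k =>
    hΨ.comp ((hmc k).of_le (by exact_mod_cast le_top))
  have hgd : ∀ k x, fderiv ℝ (fun x => Ψ (mol k u x)) x e = fderiv ℝ Ψ (mol k u x) (mol k (D i) x) := by
    intro k x
    have h1 : HasFDerivAt (mol k u) (fderiv ℝ (mol k u) x) x :=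
      ((hmc k).differentiable (by simp) x).hasFDerivAt
    have h2 : HasFDerivAt Ψ (fderiv ℝ Ψ (mol k u x)) (mol k u x) := (hΨd _).hasFDerivAt
    have h3 := (h2.comp x h1).fderiv
    have h4 : fderiv ℝ (fun x => Ψ (mol k u x)) x = (fderiv ℝ Ψ (mol k u x)).comp (fderiv ℝ (mol k u) x) := h3
    rw [h4, ContinuousLinearMap.comp_apply, mol_fderiv k hlu hwd]
  have hk1 : ∀ k, Integrable fun x => pd i φ x • Ψ (mol k u x) := fun k =>
    (hpc.smul (hg1 k).continuous).integrable_of_hasCompactSupport hps.smul_right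
  have hk2 : ∀ k, Integrable fun x => φ x • fderiv ℝ Ψ (mol k u x) (mol k (D i) x) := fun k =>
    (hφc.smul ((hΨ'c.comp (hmc k).continuous).clm_apply (hmD k))).integrable_of_hasCompactSupport
      hφ.2.smul_right
  have hk3 : ∀ k, Integrable fun x => φ x • Ψ (mol k u x) := fun k =>
    (hφc.smul (hg1 k).continuous).integrable_of_hasCompactSupport hφ.2.smul_right
  have hI : ∀ k, ∫ x, pd i φ x • Ψ (mol k u x) =
      -∫ x, φ x • fderiv ℝ Ψ (mol k u x) (mol k (D i) x) := by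
    intro k
    have h := integral_smul_fderiv_eq_neg_fderiv_smul_of_integrable (μ := (volume : Measure E3))
      (f := φ) (g := fun x => Ψ (mol k u x)) (v := e) (hk1 k)
      (by simpa only [hgd] using hk2 k) (hk3 k)
      (fun x _ => hφ1.differentiable one_ne_zero x)
      (fun x _ => (hg1 k).differentiable one_ne_zero x)
    simp only [hgd] at h
    rw [h, neg_neg]
    rfl
  have hum : AEStronglyMeasurable u volume := hu.1
  have hDm : AEStronglyMeasurable (D i) volume := (hD i).1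
  -- limits
  have hL1 : Tendsto (fun k => ∫ x, pd i φ x • Ψ (mol k u x)) atTop (𝓝 (∫ x, pd i φ x • Ψ (u x))) := by
    apply tendsto_integral_of_L1 _ (hpc.aestronglyMeasurable.smul (hΨc.comp_aestronglyMeasurable hum))
      (Eventually.of_forall hk1)
    have h1 : Tendsto (fun k => ENNReal.ofReal L * ∫⁻ x, ‖pd i φ x‖ₑ * ‖mol k u x - u x‖ₑ) atTop (𝓝 0) := by
      have h2 := tendsto_mul_L2 (c := fun x => ‖pd i φ x‖ₑ) (w := fun k x => ‖mol k u x - u x‖ₑ)
        (μ := (volume : Measure E3))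
        hpc.aestronglyMeasurable.enorm
        (fun k => ((hmc k).continuous.aestronglyMeasurable.sub hum).enorm) hp2 (mol_L2_tendsto hu)
      have h3 := ENNReal.Tendsto.const_mul (a := ENNReal.ofReal L) h2 (Or.inr ENNReal.ofReal_ne_top)
      simpa using h3
    refine tendsto_of_tendsto_of_tendsto_of_le_of_le tendsto_const_nhds h1 (fun _ => bot_le) ?_
    intro k
    show ∫⁻ x, ‖pd i φ x • Ψ (mol k u x) - pd i φ x • Ψ (u x)‖ₑ ≤ _
    beta_reduce
    rw [← lintegral_const_mul' _ _ ENNReal.ofReal_ne_top]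
    apply lintegral_mono
    intro x
    simp only
    rw [← smul_sub, enorm_smul]
    calc ‖pd i φ x‖ₑ * ‖Ψ (mol k u x) - Ψ (u x)‖ₑ ≤ ‖pd i φ x‖ₑ * (ENNReal.ofReal L * ‖mol k u x - u x‖ₑ) := by
          gcongr; exact hlipe _ _
      _ = _ := by ring
  have hL2 : Tendsto (fun k => ∫ x, φ x • fderiv ℝ Ψ (mol k u x) (mol k (D i) x)) atTop
      (𝓝 (∫ x, φ x • fderiv ℝ Ψ (u x) (D i x))) := by
    have hmeas : AEStronglyMeasurable (fun x => fderiv ℝ Ψ (u x) (D i x)) (volume : Measure E3) :=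
      (isBoundedBilinearMap_apply (𝕜 := ℝ) (E := H) (F := K)).continuous.comp_aestronglyMeasurable
        ((hΨ'c.comp_aestronglyMeasurable hum).prodMk hDm)
    have hmeas2 : ∀ k, AEStronglyMeasurable (fun x => (fderiv ℝ Ψ (mol k u x) - fderiv ℝ Ψ (u x)) (D i x))
        (volume : Measure E3) := fun k =>
      (isBoundedBilinearMap_apply (𝕜 := ℝ) (E := H) (F := K)).continuous.comp_aestronglyMeasurable
        (((hΨ'c.comp (hmc k).continuous).aestronglyMeasurable.sub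
          (hΨ'c.comp_aestronglyMeasurable hum)).prodMk hDm)
    apply tendsto_integral_of_L1 _ (hφc.aestronglyMeasurable.smul hmeas)
      (Eventually.of_forall hk2)
    have h1 : Tendsto (fun k => ENNReal.ofReal L * ∫⁻ x, ‖φ x‖ₑ * ‖mol k (D i) x - D i x‖ₑ) atTop (𝓝 0) := by
      have h2 := tendsto_mul_L2 (c := fun x => ‖φ x‖ₑ) (w := fun k x => ‖mol k (D i) x - D i x‖ₑ)
        (μ := (volume : Measure E3))
        hφc.aestronglyMeasurable.enorm
        (fun k => ((hmD k).aestronglyMeasurable.sub hDm).enorm) hφ2 (mol_L2_tendsto (hD i))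
      have h3 := ENNReal.Tendsto.const_mul (a := ENNReal.ofReal L) h2 (Or.inr ENNReal.ofReal_ne_top)
      simpa using h3
    have h4 : Tendsto (fun k => ∫⁻ x, ‖φ x‖ₑ * ‖(fderiv ℝ Ψ (mol k u x) - fderiv ℝ Ψ (u x)) (D i x)‖ₑ)
        atTop (𝓝 (∫⁻ _ : E3, 0)) := by
      apply tendsto_lintegral_of_dominated_convergence'
        (fun x => 2 * ENNReal.ofReal L * (‖φ x‖ₑ * ‖D i x‖ₑ))
      · intro k
        exact hφc.aestronglyMeasurable.enorm.mul (hmeas2 k).enorm
      · intro k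
        apply Eventually.of_forall
        intro x
        simp only
        have h5 : ‖(fderiv ℝ Ψ (mol k u x) - fderiv ℝ Ψ (u x)) (D i x)‖ₑ ≤
            2 * ENNReal.ofReal L * ‖D i x‖ₑ := by
          rw [_root_.sub_apply, two_mul, add_mul]
          exact (enorm_sub_le).trans (add_le_add (hLe _ _) (hLe _ _))
        calc ‖φ x‖ₑ * ‖(fderiv ℝ Ψ (mol k u x) - fderiv ℝ Ψ (u x)) (D i x)‖ₑ
            ≤ ‖φ x‖ₑ * (2 * ENNReal.ofReal L * ‖D i x‖ₑ) := by gcongr
          _ = _ := by ring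
      · rw [lintegral_const_mul' _ _ (ENNReal.mul_ne_top (by norm_num) ENNReal.ofReal_ne_top)]
        apply ENNReal.mul_ne_top (ENNReal.mul_ne_top (by norm_num) ENNReal.ofReal_ne_top)
        refine ne_top_of_le_ne_top ?_ (cs_lint hφc.aestronglyMeasurable.enorm hDm.enorm)
        exact ENNReal.mul_ne_top (ENNReal.rpow_ne_top_of_nonneg (by norm_num) hφ2)
          (ENNReal.rpow_ne_top_of_nonneg (by norm_num) (memLp_two_iff.1 (hD i)).2)
      · filter_upwards [mol_ae_tendsto hlu] with x hx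
        have h6 : Tendsto (fun k => (fderiv ℝ Ψ (mol k u x) - fderiv ℝ Ψ (u x)) (D i x)) atTop (𝓝 0) := by
          have h7 : Tendsto (fun k => fderiv ℝ Ψ (mol k u x)) atTop (𝓝 (fderiv ℝ Ψ (u x))) :=
            (hΨ'c.tendsto _).comp hx
          have h8 : Tendsto (fun k => fderiv ℝ Ψ (mol k u x) - fderiv ℝ Ψ (u x)) atTop (𝓝 0) := by
            simpa using h7.sub_const (fderiv ℝ Ψ (u x))
          have h9 := ((ContinuousLinearMap.apply ℝ K (D i x)).continuous.tendsto 0).comp h8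
          rw [map_zero] at h9
          exact h9
        have h7 : Tendsto (fun k => ‖(fderiv ℝ Ψ (mol k u x) - fderiv ℝ Ψ (u x)) (D i x)‖ₑ) atTop (𝓝 0) := by
          have h10 := (continuous_enorm.tendsto (0 : K)).comp h6
          rw [enorm_zero] at h10
          exact h10
        have h8 := ENNReal.Tendsto.const_mul (a := ‖φ x‖ₑ) h7 (Or.inr enorm_ne_top)
        simpa using h8
    rw [lintegral_zero] at h4
    have h5 := h1.add h4
    rw [add_zero] at h5
    refine tendsto_of_tendsto_of_tendsto_of_le_of_le tendsto_const_nhds h5 (fun _ => bot_le) ?_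
    intro k
    show ∫⁻ x, ‖φ x • fderiv ℝ Ψ (mol k u x) (mol k (D i) x) - φ x • fderiv ℝ Ψ (u x) (D i x)‖ₑ ≤ _
    beta_reduce
    rw [← lintegral_const_mul' _ _ ENNReal.ofReal_ne_top, ← lintegral_add_left']
    · apply lintegral_mono
      intro x
      simp only
      rw [← smul_sub, enorm_smul]
      have h6 : fderiv ℝ Ψ (mol k u x) (mol k (D i) x) - fderiv ℝ Ψ (u x) (D i x) =
          fderiv ℝ Ψ (mol k u x) (mol k (D i) x - D i x) +
            (fderiv ℝ Ψ (mol k u x) - fderiv ℝ Ψ (u x)) (D i x) := by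
        rw [map_sub, _root_.sub_apply]; abel
      rw [h6]
      calc ‖φ x‖ₑ * ‖fderiv ℝ Ψ (mol k u x) (mol k (D i) x - D i x) +
            (fderiv ℝ Ψ (mol k u x) - fderiv ℝ Ψ (u x)) (D i x)‖ₑ
          ≤ ‖φ x‖ₑ * (ENNReal.ofReal L * ‖mol k (D i) x - D i x‖ₑ +
            ‖(fderiv ℝ Ψ (mol k u x) - fderiv ℝ Ψ (u x)) (D i x)‖ₑ) := by
              gcongr
              exact (enorm_add_le _ _).trans (add_le_add (hLe _ _) le_rfl)
        _ = _ := by ring
    · exact (hφc.aestronglyMeasurable.enorm.mul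
        ((hmD k).aestronglyMeasurable.sub hDm).enorm).const_mul _
  have hL3 : Tendsto (fun k => ∫ x, pd i φ x • Ψ (mol k u x)) atTop
      (𝓝 (-∫ x, φ x • fderiv ℝ Ψ (u x) (D i x))) := by
    simp only [hI]
    exact hL2.neg
  exact tendsto_nhds_unique hL1 hL3

end Pool.Agent.H548.HK
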