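import Pool.Agent.H998.HK.Spec

/-!
# Task J of the project HK: two one-dimensional integrals
-/

set_option autoImplicit false

noncomputable section

namespace Pool.Agent.H548.HK

open MeasureTheory Filter Topology Set
open Pool.Agent.H998.HK
open scoped ENNReal NNReal

/-- `∫₀ᶜ v^{-p} dv` -/
theorem lint_rpow (p c : ℝ) (hp : p < 1) (hc : 0 < c) :
    ∫⁻ v in Ioc (0:ℝ) c, ENNReal.ofReal (v ^ (-p)) = ENNReal.ofReal (c ^ (1 - p) / (1 - p)) := by
  have h1 : IntervalIntegrable (fun v : ℝ => v ^ (-p)) volume 0 c :=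
    intervalIntegral.intervalIntegrable_rpow' (by linarith)
  rw [intervalIntegrable_iff_integrableOn_Ioc_of_le hc.le] at h1
  rw [← ofReal_integral_eq_lintegral_ofReal h1 ?_, ← intervalIntegral.integral_of_le hc.le,
    integral_rpow (Or.inl (by linarith))]
  · have : -p + 1 = 1 - p := by ring
    rw [this, Real.zero_rpow (by linarith), sub_zero]
  · filter_upwards [ae_restrict_mem measurableSet_Ioc] with v hv
    exact Real.rpow_nonneg hv.1.le _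

theorem lint_rpow_Ioi (p c : ℝ) (hp : 1 < p) (hc : 0 < c) :
    ∫⁻ v in Ioi c, ENNReal.ofReal (v ^ (-p)) = ENNReal.ofReal (c ^ (1 - p) / (p - 1)) := by
  have h1 : IntegrableOn (fun v : ℝ => v ^ (-p)) (Ioi c) volume :=
    integrableOn_Ioi_rpow_of_lt (by linarith) hc
  rw [← ofReal_integral_eq_lintegral_ofReal h1 ?_, integral_Ioi_rpow_of_lt (by linarith) hc]
  · have : -p + 1 = 1 - p := by ring
    rw [this]
    congr 1
    rw [show (1 - p) = -(p - 1) by ring, div_neg, neg_div, neg_neg]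
  · filter_upwards [ae_restrict_mem measurableSet_Ioi] with v hv
    exact Real.rpow_nonneg (hc.le.trans (le_of_lt hv)) _

/-- the basic kernel integral, pointwise domination -/
theorem kern_pt {α β b u : ℝ} (hα : 0 < α) (hβ : 0 < β) (hb : 0 < b) (hu : 0 < u) :
    ENNReal.ofReal (u ^ (-α) * |u - b| ^ (-β)) ≤
      ENNReal.ofReal ((b / 2) ^ (-β)) * (Ioc (0:ℝ) (b/2)).indicator (fun v => ENNReal.ofReal (v ^ (-α))) u
      + ENNReal.ofReal ((b / 2) ^ (-α)) * ((Ioc (0:ℝ) b).indicator (fun v => ENNReal.ofReal (v ^ (-β))) (u - b)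
        + (Ioc (0:ℝ) b).indicator (fun v => ENNReal.ofReal (v ^ (-β))) (b - u))
      + ENNReal.ofReal (2 ^ β) * (Ioi b).indicator (fun v => ENNReal.ofReal (v ^ (-(α + β)))) u := by
  by_cases h1 : u ≤ b / 2
  · have hm : u ∈ Ioc (0:ℝ) (b/2) := ⟨hu, h1⟩
    rw [indicator_of_mem hm, add_assoc]
    refine le_trans ?_ le_self_add
    rw [← ENNReal.ofReal_mul (by positivity)]
    apply ENNReal.ofReal_le_ofReal
    rw [mul_comm]
    apply mul_le_mul_of_nonneg_right _ (by positivity)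
    apply Real.rpow_le_rpow_of_nonpos (by positivity) _ (by linarith)
    rw [abs_of_neg (by linarith)]; linarith
  · push Not at h1
    by_cases h2 : u ≤ 2 * b
    · have hA : ENNReal.ofReal (u ^ (-α) * |u - b| ^ (-β)) ≤ ENNReal.ofReal ((b / 2) ^ (-α)) *
          ((Ioc (0:ℝ) b).indicator (fun v => ENNReal.ofReal (v ^ (-β))) (u - b)
        + (Ioc (0:ℝ) b).indicator (fun v => ENNReal.ofReal (v ^ (-β))) (b - u)) := by
        rcases lt_trichotomy u b with h | h | h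
        · have hm : b - u ∈ Ioc (0:ℝ) b := ⟨by linarith, by linarith⟩
          rw [indicator_of_mem hm]
          refine le_trans ?_ (mul_le_mul_right (le_add_self) _)
          rw [← ENNReal.ofReal_mul (by positivity)]
          apply ENNReal.ofReal_le_ofReal
          rw [abs_of_neg (by linarith), neg_sub]
          apply mul_le_mul_of_nonneg_right _ (Real.rpow_nonneg (by linarith) _)
          exact Real.rpow_le_rpow_of_nonpos (by positivity) h1.le (by linarith)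
        · subst h
          rw [sub_self, abs_zero, Real.zero_rpow (by linarith), mul_zero, ENNReal.ofReal_zero]
          exact zero_le
        · have hm : u - b ∈ Ioc (0:ℝ) b := ⟨by linarith, by linarith⟩
          rw [indicator_of_mem hm]
          refine le_trans ?_ (mul_le_mul_right (le_self_add) _)
          rw [← ENNReal.ofReal_mul (by positivity)]
          apply ENNReal.ofReal_le_ofReal
          rw [abs_of_pos (by linarith)]
          apply mul_le_mul_of_nonneg_right _ (Real.rpow_nonneg (by linarith) _)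
          exact Real.rpow_le_rpow_of_nonpos (by positivity) h1.le (by linarith)
      refine hA.trans ?_
      rw [add_assoc]
      refine le_trans ?_ (add_le_add_right (le_self_add) _)
      exact le_add_self
    · push Not at h2
      have hm : u ∈ Ioi b := by simp only [mem_Ioi]; linarith
      rw [indicator_of_mem hm]
      refine le_trans ?_ le_add_self
      rw [← ENNReal.ofReal_mul (by positivity)]
      apply ENNReal.ofReal_le_ofReal
      rw [abs_of_pos (by linarith), neg_add, Real.rpow_add hu]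
      have h3 : (u - b) ^ (-β) ≤ (u / 2) ^ (-β) :=
        Real.rpow_le_rpow_of_nonpos (by positivity) (by linarith) (by linarith)
      have h4 : (u / 2) ^ (-β) = 2 ^ β * u ^ (-β) := by
        rw [Real.div_rpow hu.le (by norm_num), Real.rpow_neg (by norm_num : (0:ℝ) ≤ 2), div_inv_eq_mul]
        ring
      calc u ^ (-α) * (u - b) ^ (-β) ≤ u ^ (-α) * (2 ^ β * u ^ (-β)) := by
            rw [← h4]; exact mul_le_mul_of_nonneg_left h3 (by positivity)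
        _ = _ := by ring

/-- the basic kernel integral -/
theorem kern {α β : ℝ} (hα : 0 < α) (hα1 : α < 1) (hβ : 0 < β) (hβ1 : β < 1) (hαβ : 1 < α + β) :
    ∃ C : ℝ, 0 < C ∧ ∀ b : ℝ, 0 < b →
      ∫⁻ u in Ioi (0:ℝ), ENNReal.ofReal (u ^ (-α) * |u - b| ^ (-β)) ≤
        ENNReal.ofReal (C * b ^ (1 - α - β)) := by
  refine ⟨(1/2) ^ (-β) * ((1/2) ^ (1 - α) / (1 - α)) + (1/2) ^ (-α) * (2 * (1 / (1 - β)))
    + 2 ^ β * (1 / (α + β - 1)), ?_, ?_⟩
  · have := sub_pos.2 hα1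
    have := sub_pos.2 hβ1
    have := sub_pos.2 hαβ
    positivity
  intro b hb
  set f1 : ℝ → ℝ≥0∞ := (Ioc (0:ℝ) (b/2)).indicator (fun v => ENNReal.ofReal (v ^ (-α))) with hf1
  set f2 : ℝ → ℝ≥0∞ := (Ioc (0:ℝ) b).indicator (fun v => ENNReal.ofReal (v ^ (-β))) with hf2
  set f3 : ℝ → ℝ≥0∞ := (Ioi b).indicator (fun v => ENNReal.ofReal (v ^ (-(α + β)))) with hf3
  have mr : ∀ p : ℝ, Measurable (fun v : ℝ => ENNReal.ofReal (v ^ (-p))) := fun p =>
    ENNReal.measurable_ofReal.comp (measurable_id.pow_const _)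
  have m1 : Measurable f1 := (mr α).indicator measurableSet_Ioc
  have m2 : Measurable f2 := (mr β).indicator measurableSet_Ioc
  have m3 : Measurable f3 := (mr (α + β)).indicator measurableSet_Ioi
  have i1 : ∫⁻ u, f1 u = ENNReal.ofReal ((b/2) ^ (1 - α) / (1 - α)) := by
    rw [hf1, lintegral_indicator measurableSet_Ioc, lint_rpow α (b/2) hα1 (by positivity)]
  have i2 : ∫⁻ u, f2 u = ENNReal.ofReal (b ^ (1 - β) / (1 - β)) := by
    rw [hf2, lintegral_indicator measurableSet_Ioc, lint_rpow β b hβ1 hb]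
  have i2a : ∫⁻ u, f2 (u - b) = ENNReal.ofReal (b ^ (1 - β) / (1 - β)) := by
    rw [lintegral_sub_right_eq_self f2 b, i2]
  have i2b : ∫⁻ u, f2 (b - u) = ENNReal.ofReal (b ^ (1 - β) / (1 - β)) := by
    rw [lintegral_sub_left_eq_self f2 b, i2]
  have i3 : ∫⁻ u, f3 u = ENNReal.ofReal (b ^ (1 - (α + β)) / (α + β - 1)) := by
    rw [hf3, lintegral_indicator measurableSet_Ioi, lint_rpow_Ioi (α + β) b hαβ hb]
  have hstep : ∫⁻ u in Ioi (0:ℝ), ENNReal.ofReal (u ^ (-α) * |u - b| ^ (-β)) ≤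
      ∫⁻ u, (ENNReal.ofReal ((b / 2) ^ (-β)) * f1 u
      + ENNReal.ofReal ((b / 2) ^ (-α)) * (f2 (u - b) + f2 (b - u))
      + ENNReal.ofReal (2 ^ β) * f3 u) := by
    refine le_trans ?_ (setLIntegral_le_lintegral (Ioi (0:ℝ)) _)
    apply setLIntegral_mono' measurableSet_Ioi
    intro u hu
    exact kern_pt hα hβ hb hu
  refine hstep.trans ?_
  have m2a : Measurable fun u : ℝ => f2 (u - b) := m2.comp (measurable_id.sub_const b)
  have m2b : Measurable fun u : ℝ => f2 (b - u) := m2.comp (measurable_id.const_sub b)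
  have m4 : Measurable fun u : ℝ => ENNReal.ofReal ((b / 2) ^ (-β)) * f1 u := m1.const_mul _
  have m5' : Measurable fun u : ℝ => f2 (u - b) + f2 (b - u) := m2a.add m2b
  have m5 : Measurable fun u : ℝ => ENNReal.ofReal ((b / 2) ^ (-α)) * (f2 (u - b) + f2 (b - u)) :=
    m5'.const_mul _
  have m6 : Measurable fun u : ℝ => ENNReal.ofReal ((b / 2) ^ (-β)) * f1 u +
    ENNReal.ofReal ((b / 2) ^ (-α)) * (f2 (u - b) + f2 (b - u)) := m4.add m5
  rw [lintegral_add_left m6, lintegral_add_left m4, lintegral_const_mul _ m1,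
    lintegral_const_mul _ m5', lintegral_const_mul _ m3, lintegral_add_left m2a,
    i1, i2a, i2b, i3]
  have p1 := sub_pos.2 hα1
  have p2 := sub_pos.2 hβ1
  have p3 := sub_pos.2 hαβ
  rw [← ENNReal.ofReal_add (by positivity) (by positivity), ← ENNReal.ofReal_mul (by positivity),
    ← ENNReal.ofReal_mul (by positivity), ← ENNReal.ofReal_mul (by positivity),
    ← ENNReal.ofReal_add (by positivity) (by positivity),
    ← ENNReal.ofReal_add (by positivity) (by positivity)]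
  apply ENNReal.ofReal_le_ofReal
  apply le_of_eq
  have e0 : b / 2 = (1/2) * b := by ring
  have e1 : b ^ (1 - α - β) = b ^ (-β) * b ^ (1 - α) := by
    rw [← Real.rpow_add hb]; congr 1; ring
  have e2 : b ^ (1 - α - β) = b ^ (-α) * b ^ (1 - β) := by
    rw [← Real.rpow_add hb]; congr 1; ring
  have e3 : b ^ (1 - (α + β)) = b ^ (1 - α - β) := by congr 1; ring
  rw [e0, Real.mul_rpow (by norm_num) hb.le, Real.mul_rpow (by norm_num) hb.le,
    Real.mul_rpow (by norm_num) hb.le, e3]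
  calc _ = (1/2) ^ (-β) * ((1/2) ^ (1 - α) / (1 - α)) * (b ^ (-β) * b ^ (1 - α))
        + (1/2) ^ (-α) * (2 * (1 / (1 - β))) * (b ^ (-α) * b ^ (1 - β))
        + 2 ^ β * (1 / (α + β - 1)) * b ^ (1 - α - β) := by ring
    _ = _ := by rw [← e1, ← e2]; ring

/-- mirrored version, and for a sum -/
theorem kern2 {α β : ℝ} (hα : 0 < α) (hα1 : α < 1) (hβ : 0 < β) (hβ1 : β < 1) (hαβ : 1 < α + β) :
    ∃ C : ℝ, 0 < C ∧ ∀ b : ℝ, 0 < b → b < 2 →
      ∫⁻ u in Ioo (0:ℝ) 2, (ENNReal.ofReal (u ^ (-α) * |u - b| ^ (-β)) +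
        ENNReal.ofReal ((2 - u) ^ (-α) * |u - b| ^ (-β))) ≤
        ENNReal.ofReal (C * (b ^ (1 - α - β) + (2 - b) ^ (1 - α - β))) := by
  obtain ⟨C, hC, h⟩ := kern hα hα1 hβ hβ1 hαβ
  refine ⟨C, hC, fun b hb hb2 => ?_⟩
  have mm : Measurable fun u : ℝ => ENNReal.ofReal (u ^ (-α) * |u - b| ^ (-β)) := by fun_prop
  rw [lintegral_add_left mm, mul_add, ENNReal.ofReal_add
    (by have := hb; positivity) (by have := sub_pos.2 hb2; positivity)]
  apply add_le_add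
  · exact (lintegral_mono_set Ioo_subset_Ioi_self).trans (h b hb)
  · have h2 := h (2 - b) (by linarith)
    refine le_trans ?_ h2
    rw [← lintegral_indicator measurableSet_Ioo, ← lintegral_indicator measurableSet_Ioi,
      ← lintegral_sub_left_eq_self _ (2:ℝ)]
    apply lintegral_mono
    intro u
    simp only [indicator_apply, mem_Ioo, mem_Ioi]
    by_cases hu : 0 < 2 - u ∧ 2 - u < 2
    · rw [if_pos hu]
      have hu' : 0 < u := by linarith [hu.2]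
      rw [if_pos hu']
      have e1 : 2 - (2 - u) = u := by ring
      have e2 : |2 - u - b| = |u - (2 - b)| := by rw [abs_sub_comm]; congr 1; ring
      rw [e1, e2]
    · rw [if_neg hu]; exact zero_le

theorem key {X T w p q : ℝ} (hT : 0 < T) (hw : 0 < w) (h1 : T ≤ X) (h2 : w * (1 + T) ≤ X)
    (hp : 0 ≤ p) (hq : 0 ≤ q) : X ^ (-(p + q)) ≤ T ^ (-p) * (w ^ (-q) * (1 + T) ^ (-q)) := by
  have hX : 0 < X := hT.trans_le h1
  rw [neg_add, Real.rpow_add hX, ← Real.mul_rpow hw.le (by linarith)]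
  apply mul_le_mul
  · exact Real.rpow_le_rpow_of_nonpos hT h1 (by linarith)
  · exact Real.rpow_le_rpow_of_nonpos (by positivity) h2 (by linarith)
  · positivity
  · positivity

theorem sq_form {u T b : ℝ} (hu : 0 < u) (hu2 : u < 2) (hT : 0 < T) :
    1 / (√(u * (2 - u)) * √(T + 2 * u) * √(2 * |u - b|)) =
      u ^ (-(1/2:ℝ)) * (2 - u) ^ (-(1/2:ℝ)) * (T + 2 * u) ^ (-(1/2:ℝ)) *
        ((2:ℝ) ^ (-(1/2:ℝ)) * |u - b| ^ (-(1/2:ℝ))) := by
  have h2 : 0 < 2 - u := by linarith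
  rw [Real.sqrt_eq_rpow, Real.sqrt_eq_rpow, Real.sqrt_eq_rpow, Real.mul_rpow hu.le h2.le,
    Real.mul_rpow (by norm_num) (abs_nonneg _), Real.rpow_neg hu.le, Real.rpow_neg h2.le,
    Real.rpow_neg (by positivity), Real.rpow_neg (by norm_num), Real.rpow_neg (abs_nonneg _)]
  simp only [one_div, mul_inv]


theorem le_sum_of {A x y z : ℝ} (hA : 0 ≤ A) (hy : 0 ≤ y) (hz : 0 ≤ z)
    (h : x ≤ A * y ∨ x ≤ A * z) :
    ENNReal.ofReal x ≤ ENNReal.ofReal A * (ENNReal.ofReal y + ENNReal.ofReal z) := by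
  rw [← ENNReal.ofReal_add hy hz, ← ENNReal.ofReal_mul hA]
  apply ENNReal.ofReal_le_ofReal
  rcases h with h | h
  · nlinarith [mul_nonneg hA hz]
  · nlinarith [mul_nonneg hA hy]

theorem rpow_le_one' {x a : ℝ} (hx : 1 ≤ x) (ha : 0 ≤ a) : x ^ (-a) ≤ 1 :=
  Real.rpow_le_one_of_one_le_of_nonpos hx (by linarith)

/-- `x^{-a} ≤ x^{-c}` for `0 < x ≤ 1`, `a ≤ c` -/
theorem rpow_mono' {x a c : ℝ} (hx : 0 < x) (hx1 : x ≤ 1) (h : a ≤ c) : x ^ (-a) ≤ x ^ (-c) :=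
  Real.rpow_le_rpow_of_exponent_ge hx hx1 (by linarith)

theorem pt0 {u T b : ℝ} (hu : 0 < u) (hu2 : u < 2) (hT : 0 < T) :
    ENNReal.ofReal (1 / (√(u * (2 - u)) * √(T + 2 * u) * √(2 * |u - b|))) ≤
      ENNReal.ofReal (T ^ (-(1 / 6 : ℝ)) * (1 + T) ^ (-(1 / 3 : ℝ))) *
        (ENNReal.ofReal (u ^ (-(5/6 : ℝ)) * |u - b| ^ (-(1/2 : ℝ))) +
        ENNReal.ofReal ((2 - u) ^ (-(5/6 : ℝ)) * |u - b| ^ (-(1/2 : ℝ)))) := by
  have h2 : 0 < 2 - u := by linarith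
  have ht2 : (2:ℝ) ^ (-(1/2:ℝ)) ≤ 1 := rpow_le_one' (by norm_num) (by norm_num)
  rw [sq_form hu hu2 hT]
  have hu0 : 0 ≤ |u - b| ^ (-(1/2 : ℝ)) := by positivity
  apply le_sum_of (by positivity) (by positivity) (by positivity)
  by_cases h : u ≤ 1
  · left
    have k := key (X := T + 2 * u) (T := T) (w := u) (p := 1/6) (q := 1/3) hT hu (by linarith)
      (by nlinarith) (by norm_num) (by norm_num)
    rw [show (-(1/6 + 1/3 : ℝ)) = -(1/2:ℝ) by norm_num] at k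
    have h3 : (2 - u) ^ (-(1/2:ℝ)) ≤ 1 := rpow_le_one' (by linarith) (by norm_num)
    have e : u ^ (-(5/6 : ℝ)) = u ^ (-(1/2:ℝ)) * u ^ (-(1/3:ℝ)) := by
      rw [← Real.rpow_add hu]; norm_num
    calc u ^ (-(1/2:ℝ)) * (2 - u) ^ (-(1/2:ℝ)) * (T + 2 * u) ^ (-(1/2:ℝ)) *
        ((2:ℝ) ^ (-(1/2:ℝ)) * |u - b| ^ (-(1/2:ℝ))) ≤
        u ^ (-(1/2:ℝ)) * 1 * (T ^ (-(1/6:ℝ)) * (u ^ (-(1/3:ℝ)) * (1 + T) ^ (-(1/3:ℝ)))) *
        (1 * |u - b| ^ (-(1/2:ℝ))) := by gcongr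
      _ = _ := by rw [e]; ring
  · right
    push Not at h
    have k := key (X := T + 2 * u) (T := T) (w := 1) (p := 1/6) (q := 1/3) hT one_pos (by linarith)
      (by nlinarith) (by norm_num) (by norm_num)
    rw [show (-(1/6 + 1/3 : ℝ)) = -(1/2:ℝ) by norm_num, Real.one_rpow] at k
    have h3 : u ^ (-(1/2:ℝ)) ≤ 1 := rpow_le_one' h.le (by norm_num)
    have h4 : (2 - u) ^ (-(1/2:ℝ)) ≤ (2 - u) ^ (-(5/6:ℝ)) :=
      rpow_mono' h2 (by linarith) (by norm_num)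
    calc u ^ (-(1/2:ℝ)) * (2 - u) ^ (-(1/2:ℝ)) * (T + 2 * u) ^ (-(1/2:ℝ)) *
        ((2:ℝ) ^ (-(1/2:ℝ)) * |u - b| ^ (-(1/2:ℝ))) ≤
        1 * (2 - u) ^ (-(5/6:ℝ)) * (T ^ (-(1/6:ℝ)) * (1 * (1 + T) ^ (-(1/3:ℝ)))) *
        (1 * |u - b| ^ (-(1/2:ℝ))) := by gcongr
      _ = _ := by ring

theorem pt1 {u T b : ℝ} (hu : 0 < u) (hu2 : u < 2) (hT : 0 < T) :
    ENNReal.ofReal (1 / (√(u * (2 - u)) * √(T + 2 * u) * √(2 * |u - b|)) *
    ((if u < b then 2 - u else u) * |u - b|) ^ (-(1 / 4 : ℝ))) ≤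
      ENNReal.ofReal (T ^ (-(1 / 3 : ℝ)) * (1 + T) ^ (-(1 / 6 : ℝ))) *
        (ENNReal.ofReal (u ^ (-(11/12 : ℝ)) * |u - b| ^ (-(3/4 : ℝ))) +
        ENNReal.ofReal ((2 - u) ^ (-(11/12 : ℝ)) * |u - b| ^ (-(3/4 : ℝ)))) := by
  have h2 : 0 < 2 - u := by linarith
  have ht2 : (2:ℝ) ^ (-(1/2:ℝ)) ≤ 1 := rpow_le_one' (by norm_num) (by norm_num)
  rw [sq_form hu hu2 hT]
  have hq : 0 < (if u < b then 2 - u else u) := by split_ifs <;> assumption
  rw [Real.mul_rpow hq.le (abs_nonneg _)]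
  have hu0 : 0 ≤ |u - b| ^ (-(3/4 : ℝ)) := by positivity
  by_cases hub : |u - b| = 0
  · rw [hub, Real.zero_rpow (by norm_num), mul_zero, mul_zero, zero_mul, ENNReal.ofReal_zero]
    exact zero_le
  have hab : 0 < |u - b| := lt_of_le_of_ne (abs_nonneg _) (Ne.symm hub)
  have eab : |u - b| ^ (-(3/4:ℝ)) = |u - b| ^ (-(1/2:ℝ)) * |u - b| ^ (-(1/4:ℝ)) := by
    rw [← Real.rpow_add hab]; norm_num
  apply le_sum_of (by positivity) (by positivity) (by positivity)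
  by_cases h : u ≤ 1
  · left
    have k := key (X := T + 2 * u) (T := T) (w := u) (p := 1/3) (q := 1/6) hT hu (by linarith)
      (by nlinarith) (by norm_num) (by norm_num)
    rw [show (-(1/3 + 1/6 : ℝ)) = -(1/2:ℝ) by norm_num] at k
    have h3 : (2 - u) ^ (-(1/2:ℝ)) ≤ 1 := rpow_le_one' (by linarith) (by norm_num)
    have h4 : (if u < b then 2 - u else u) ^ (-(1/4:ℝ)) ≤ u ^ (-(1/4:ℝ)) := by
      apply Real.rpow_le_rpow_of_nonpos hu _ (by norm_num)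
      split_ifs <;> linarith
    have e : u ^ (-(11/12 : ℝ)) = u ^ (-(1/2:ℝ)) * u ^ (-(1/6:ℝ)) * u ^ (-(1/4:ℝ)) := by
      rw [← Real.rpow_add hu, ← Real.rpow_add hu]; norm_num
    calc u ^ (-(1/2:ℝ)) * (2 - u) ^ (-(1/2:ℝ)) * (T + 2 * u) ^ (-(1/2:ℝ)) *
        ((2:ℝ) ^ (-(1/2:ℝ)) * |u - b| ^ (-(1/2:ℝ))) *
          ((if u < b then 2 - u else u) ^ (-(1/4:ℝ)) * |u - b| ^ (-(1/4:ℝ))) ≤
        u ^ (-(1/2:ℝ)) * 1 * (T ^ (-(1/3:ℝ)) * (u ^ (-(1/6:ℝ)) * (1 + T) ^ (-(1/6:ℝ)))) *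
        (1 * |u - b| ^ (-(1/2:ℝ))) * (u ^ (-(1/4:ℝ)) * |u - b| ^ (-(1/4:ℝ))) := by gcongr
      _ = _ := by rw [e, eab]; ring
  · right
    push Not at h
    have k := key (X := T + 2 * u) (T := T) (w := 1) (p := 1/3) (q := 1/6) hT one_pos (by linarith)
      (by nlinarith) (by norm_num) (by norm_num)
    rw [show (-(1/3 + 1/6 : ℝ)) = -(1/2:ℝ) by norm_num, Real.one_rpow] at k
    have h3 : u ^ (-(1/2:ℝ)) ≤ 1 := rpow_le_one' h.le (by norm_num)
    have h4 : (if u < b then 2 - u else u) ^ (-(1/4:ℝ)) ≤ (2 - u) ^ (-(1/4:ℝ)) := by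
      apply Real.rpow_le_rpow_of_nonpos h2 _ (by norm_num)
      split_ifs <;> linarith
    have h5 : (2 - u) ^ (-(3/4:ℝ)) ≤ (2 - u) ^ (-(11/12:ℝ)) :=
      rpow_mono' h2 (by linarith) (by norm_num)
    have e : (2 - u) ^ (-(3/4 : ℝ)) = (2 - u) ^ (-(1/2:ℝ)) * (2 - u) ^ (-(1/4:ℝ)) := by
      rw [← Real.rpow_add h2]; norm_num
    calc u ^ (-(1/2:ℝ)) * (2 - u) ^ (-(1/2:ℝ)) * (T + 2 * u) ^ (-(1/2:ℝ)) *
        ((2:ℝ) ^ (-(1/2:ℝ)) * |u - b| ^ (-(1/2:ℝ))) *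
          ((if u < b then 2 - u else u) ^ (-(1/4:ℝ)) * |u - b| ^ (-(1/4:ℝ))) ≤
        1 * (2 - u) ^ (-(1/2:ℝ)) * (T ^ (-(1/3:ℝ)) * (1 * (1 + T) ^ (-(1/6:ℝ)))) *
        (1 * |u - b| ^ (-(1/2:ℝ))) * ((2 - u) ^ (-(1/4:ℝ)) * |u - b| ^ (-(1/4:ℝ))) := by gcongr
      _ = (T ^ (-(1/3:ℝ)) * (1 + T) ^ (-(1/6:ℝ))) * ((2 - u) ^ (-(3/4:ℝ)) * |u - b| ^ (-(3/4:ℝ))) := by
          rw [e, eab]; ring
      _ ≤ _ := by gcongr

theorem t_J : S_J := by
  obtain ⟨C0, hC0, H0⟩ := kern2 (α := 5/6) (β := 1/2) (by norm_num) (by norm_num) (by norm_num)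
    (by norm_num) (by norm_num)
  obtain ⟨C1, hC1, H1⟩ := kern2 (α := 11/12) (β := 3/4) (by norm_num) (by norm_num) (by norm_num)
    (by norm_num) (by norm_num)
  refine ⟨max C0 C1, lt_max_of_lt_left hC0, fun T b hT hb hb2 => ⟨?_, ?_⟩⟩
  · have h := H0 b hb hb2
    rw [show (1 - 5/6 - 1/2 : ℝ) = -(1/3:ℝ) by norm_num] at h
    calc J0 T b ≤ ∫⁻ u in Ioo (0 : ℝ) 2, ENNReal.ofReal (T ^ (-(1 / 6 : ℝ)) * (1 + T) ^ (-(1 / 3 : ℝ))) *
        (ENNReal.ofReal (u ^ (-(5/6 : ℝ)) * |u - b| ^ (-(1/2 : ℝ))) +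
        ENNReal.ofReal ((2 - u) ^ (-(5/6 : ℝ)) * |u - b| ^ (-(1/2 : ℝ)))) := by
          apply setLIntegral_mono' measurableSet_Ioo
          intro u hu
          exact pt0 hu.1 hu.2 hT
      _ = ENNReal.ofReal (T ^ (-(1 / 6 : ℝ)) * (1 + T) ^ (-(1 / 3 : ℝ))) *
          ∫⁻ u in Ioo (0 : ℝ) 2, (ENNReal.ofReal (u ^ (-(5/6 : ℝ)) * |u - b| ^ (-(1/2 : ℝ))) +
        ENNReal.ofReal ((2 - u) ^ (-(5/6 : ℝ)) * |u - b| ^ (-(1/2 : ℝ)))) := by
          rw [lintegral_const_mul' _ _ ENNReal.ofReal_ne_top]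
      _ ≤ ENNReal.ofReal (T ^ (-(1 / 6 : ℝ)) * (1 + T) ^ (-(1 / 3 : ℝ))) *
          ENNReal.ofReal (C0 * (b ^ (-(1/3:ℝ)) + (2 - b) ^ (-(1/3:ℝ)))) := by gcongr
      _ ≤ _ := by
          rw [← ENNReal.ofReal_mul (by positivity)]
          apply ENNReal.ofReal_le_ofReal
          have h2 : 0 < 2 - b := by linarith
          have hm : C0 ≤ max C0 C1 := le_max_left _ _
          have hpos : 0 ≤ T ^ (-(1 / 6 : ℝ)) * (1 + T) ^ (-(1 / 3 : ℝ)) *
            (b ^ (-(1 / 3 : ℝ)) + (2 - b) ^ (-(1 / 3 : ℝ))) := by positivity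
          calc _ = C0 * (T ^ (-(1 / 6 : ℝ)) * (1 + T) ^ (-(1 / 3 : ℝ)) *
            (b ^ (-(1 / 3 : ℝ)) + (2 - b) ^ (-(1 / 3 : ℝ)))) := by ring
            _ ≤ _ := mul_le_mul_of_nonneg_right hm hpos
  · have h := H1 b hb hb2
    rw [show (1 - 11/12 - 3/4 : ℝ) = -(2/3:ℝ) by norm_num] at h
    calc J1 T b ≤ ∫⁻ u in Ioo (0 : ℝ) 2, ENNReal.ofReal (T ^ (-(1 / 3 : ℝ)) * (1 + T) ^ (-(1 / 6 : ℝ))) *
        (ENNReal.ofReal (u ^ (-(11/12 : ℝ)) * |u - b| ^ (-(3/4 : ℝ))) +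
        ENNReal.ofReal ((2 - u) ^ (-(11/12 : ℝ)) * |u - b| ^ (-(3/4 : ℝ)))) := by
          apply setLIntegral_mono' measurableSet_Ioo
          intro u hu
          exact pt1 hu.1 hu.2 hT
      _ = ENNReal.ofReal (T ^ (-(1 / 3 : ℝ)) * (1 + T) ^ (-(1 / 6 : ℝ))) *
          ∫⁻ u in Ioo (0 : ℝ) 2, (ENNReal.ofReal (u ^ (-(11/12 : ℝ)) * |u - b| ^ (-(3/4 : ℝ))) +
        ENNReal.ofReal ((2 - u) ^ (-(11/12 : ℝ)) * |u - b| ^ (-(3/4 : ℝ)))) := by
          rw [lintegral_const_mul' _ _ ENNReal.ofReal_ne_top]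
      _ ≤ ENNReal.ofReal (T ^ (-(1 / 3 : ℝ)) * (1 + T) ^ (-(1 / 6 : ℝ))) *
          ENNReal.ofReal (C1 * (b ^ (-(2/3:ℝ)) + (2 - b) ^ (-(2/3:ℝ)))) := by gcongr
      _ ≤ _ := by
          rw [← ENNReal.ofReal_mul (by positivity)]
          apply ENNReal.ofReal_le_ofReal
          have h2 : 0 < 2 - b := by linarith
          have hm : C1 ≤ max C0 C1 := le_max_right _ _
          have hpos : 0 ≤ T ^ (-(1 / 3 : ℝ)) * (1 + T) ^ (-(1 / 6 : ℝ)) *
            (b ^ (-(2 / 3 : ℝ)) + (2 - b) ^ (-(2 / 3 : ℝ))) := by positivity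
          calc _ = C1 * (T ^ (-(1 / 3 : ℝ)) * (1 + T) ^ (-(1 / 6 : ℝ)) *
            (b ^ (-(2 / 3 : ℝ)) + (2 - b) ^ (-(2 / 3 : ℝ)))) := by ring
            _ ≤ _ := mul_le_mul_of_nonneg_right hm hpos

end Pool.Agent.H548.HK
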